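import Mathlib

/-!
# Lattès maps of degree 2 with complex multiplication by `(1 + √-7) / 2`

In homogeneous coordinates `gp w` is the map of degree 2 of the projective line attached to the
endomorphism `w`, `w² = w - 2`, of the curve `y² = x³ - 35 x + 98`.
-/

set_option autoImplicit false

namespace Pool.Agent.Y835.ES

open Polynomial

section pairs

variable {R : Type} [CommRing R]

/-- The Lattès map of `w`, `w ^ 2 = w - 2`, in homogeneous coordinates. -/
def gp (w : R) (z : R × R) : R × R :=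
  (z.1 ^ 2 - (4 - w) * z.1 * z.2 - 7 * (3 * w - 1) * z.2 ^ 2,
    (w - 2) * z.2 * (z.1 - (4 - w) * z.2))

lemma gp_conj (w : R) (hw : w ^ 2 = w - 2) (z : R × R) : gp w (gp (1 - w) z) =
    (z.1 ^ 4 + 70 * z.1 ^ 2 * z.2 ^ 2 - 784 * z.1 * z.2 ^ 3 + 1225 * z.2 ^ 4,
      4 * z.2 * (z.1 ^ 3 - 35 * z.1 * z.2 ^ 2 + 98 * z.2 ^ 3)) := by
  obtain ⟨u, v⟩ := z
  simp only [gp]
  ext
  · dsimp only
    linear_combination ((-399)*v^4 + (403)*u*v^3 + (-53)*u^2*v^2 + (-1)*u^3*v + (-539)*w*v^4 +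
      (213)*w*u*v^3 + (-19)*w*u^2*v^2 + (-161)*w^2*v^4 + (41)*w^2*u*v^3 + (-21)*w^3*v^4) * hw
  · dsimp only
    linear_combination ((-118)*v^4 + (41)*u*v^3 + (-2)*u^2*v^2 + (-1)*u^3*v + (-18)*w*v^4 +
      (7)*w*u*v^3 + (-1)*w*u^2*v^2 + (4)*w^2*v^4 + (-1)*w^2*u*v^3 + (1)*w^2*u^2*v^2 +
      (3)*w^3*v^4 + (-2)*w^3*u*v^3 + (1)*w^4*v^4) * hw

lemma conj_eq {w : R} (hw : w ^ 2 = w - 2) : (1 - w) ^ 2 = (1 - w) - 2 := by
  linear_combination hw

/-- The two Lattès maps commute. -/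
lemma gp_comm (w : R) (hw : w ^ 2 = w - 2) (z : R × R) :
    gp w (gp (1 - w) z) = gp (1 - w) (gp w z) := by
  rw [gp_conj w hw]
  have h := gp_conj (1 - w) (conj_eq hw) z
  rw [sub_sub_cancel] at h
  rw [h]

/-- The word `g^a h^b`. -/
def wd (w : R) (a b : ℕ) (z : R × R) : R × R := (gp w)^[a] ((gp (1 - w))^[b] z)

lemma gp_commute (w : R) (hw : w ^ 2 = w - 2) : Function.Commute (gp w) (gp (1 - w)) :=
  fun z => gp_comm w hw z

lemma wd_iter (w : R) (hw : w ^ 2 = w - 2) (a b n : ℕ) (z : R × R) :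
    (wd w a b)^[n] z = (gp (1 - w))^[b * n] ((gp w)^[a * n] z) := by
  have hc := gp_commute w hw
  have h1 : wd w a b = (gp w)^[a] ∘ (gp (1 - w))^[b] := rfl
  rw [h1, Function.Commute.comp_iterate (hc.iterate_iterate a b), Function.comp_apply,
    ← Function.iterate_mul, ← Function.iterate_mul]
  have h2 := (hc.iterate_iterate (a * n) (b * n)).eq z
  exact h2

lemma gp_homog (w t : R) (z : R × R) :
    gp w (t * z.1, t * z.2) = (t ^ 2 * (gp w z).1, t ^ 2 * (gp w z).2) := by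
  simp only [gp]
  ext <;> dsimp only <;> ring

lemma iter_homog (w : R) (n : ℕ) (t : R) (z : R × R) : (gp w)^[n] (t * z.1, t * z.2) =
    (t ^ (2 ^ n) * ((gp w)^[n] z).1, t ^ (2 ^ n) * ((gp w)^[n] z).2) := by
  induction n with
  | zero => simp
  | succ n ih =>
    rw [Function.iterate_succ_apply', Function.iterate_succ_apply', ih, gp_homog, pow_succ 2 n,
      pow_mul t]

lemma wd_homog (w : R) (a b : ℕ) (t : R) (z : R × R) : wd w a b (t * z.1, t * z.2) =
    (t ^ (2 ^ b * 2 ^ a) * (wd w a b z).1, t ^ (2 ^ b * 2 ^ a) * (wd w a b z).2) := by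
  unfold wd
  rw [iter_homog, iter_homog, ← pow_mul]

lemma gp_map {S : Type} [CommRing S] (φ : R →+* S) (w : R) (z : R × R) :
    gp (φ w) (φ z.1, φ z.2) = (φ (gp w z).1, φ (gp w z).2) := by
  simp only [gp, map_sub, map_mul, map_pow, map_ofNat, map_one]

lemma iter_map {S : Type} [CommRing S] (φ : R →+* S) (w : R) (n : ℕ) (z : R × R) :
    (gp (φ w))^[n] (φ z.1, φ z.2) = (φ ((gp w)^[n] z).1, φ ((gp w)^[n] z).2) := by
  induction n with
  | zero => simp
  | succ n ih =>
    rw [Function.iterate_succ_apply', Function.iterate_succ_apply', ih, gp_map]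

lemma wd_map {S : Type} [CommRing S] (φ : R →+* S) (w : R) (a b : ℕ) (z : R × R) :
    wd (φ w) a b (φ z.1, φ z.2) = (φ (wd w a b z).1, φ (wd w a b z).2) := by
  unfold wd
  have h : (1 : S) - φ w = φ (1 - w) := by simp
  rw [h, iter_map, iter_map]

end pairs

section poly

variable {K : Type} [Field K]

/-- Coprime pairs of polynomials, the second one of smaller degree. -/
def Good (z : K[X] × K[X]) : Prop :=
  IsCoprime z.1 z.2 ∧ z.2 ≠ 0 ∧ z.2.natDegree < z.1.natDegree

lemma good_X : Good ((X, 1) : K[X] × K[X]) := by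
  refine ⟨isCoprime_one_right, one_ne_zero, ?_⟩
  simp

/-- Non-degeneracy of the parameter. -/
lemma ne_of_sq {w : K} (hw : w ^ 2 = w - 2) (h2 : (2 : K) ≠ 0) (h7 : (7 : K) ≠ 0) :
    w ≠ 0 ∧ w - 2 ≠ 0 ∧ 7 * (3 * w - 1) ≠ 0 := by
  have h0 : w ≠ 0 := by
    rintro rfl
    apply h2
    linear_combination hw
  refine ⟨h0, ?_, ?_⟩
  · intro h
    apply h0
    rw [h] at hw
    exact pow_eq_zero_iff (two_ne_zero) |>.1 hw
  · intro h
    have h3 : 3 * w - 1 = 0 := by
      rcases mul_eq_zero.1 h with h | h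
      · exact absurd h h7
      · exact h
    -- (3w - 1)(3w - 2) = 9w^2 - 9w + 2 = -16
    have h4 : (2 : K) ^ 4 = 0 := by
      linear_combination (-(3 * w - 2)) * h3 + 9 * hw
    exact h2 (pow_eq_zero_iff (by norm_num) |>.1 h4)

lemma good_gp {w : K} (hw : w ^ 2 = w - 2) (h2 : (2 : K) ≠ 0) (h7 : (7 : K) ≠ 0)
    {z : K[X] × K[X]} (hz : Good z) : Good (gp (C w) z) ∧
      (gp (C w) z).1.natDegree = 2 * z.1.natDegree := by
  obtain ⟨u, v⟩ := z
  obtain ⟨hc, hv, hd⟩ := hz
  dsimp only at hc hv hd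
  obtain ⟨h0, h20, he⟩ := ne_of_sq hw h2 h7
  have hu : u ≠ 0 := by
    rintro rfl
    simp at hd
  -- degrees
  have hlin : ∀ c : K, (u - C c * v).natDegree = u.natDegree := by
    intro c
    apply natDegree_sub_eq_left_of_natDegree_lt
    exact lt_of_le_of_lt (natDegree_C_mul_le _ _) hd
  have e1 : (gp (C w) (u, v)).1 = u * (u - C (4 - w) * v) - C (7 * (3 * w - 1)) * v ^ 2 := by
    simp only [gp, map_sub, map_mul, map_ofNat, map_one]
    ring
  have e2 : (gp (C w) (u, v)).2 = C (w - 2) * (v * (u - C (4 - w) * v)) := by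
    simp only [gp, map_sub, map_ofNat]
    ring
  have hl0 : u - C (4 - w) * v ≠ 0 := by
    intro h
    have := hlin (4 - w)
    rw [h, natDegree_zero] at this
    omega
  have hdeg1 : (u * (u - C (4 - w) * v)).natDegree = 2 * u.natDegree := by
    rw [natDegree_mul hu hl0, hlin]; ring
  have hdeg2 : (C (7 * (3 * w - 1)) * v ^ 2).natDegree < (u * (u - C (4 - w) * v)).natDegree := by
    rw [hdeg1]
    refine lt_of_le_of_lt (natDegree_C_mul_le _ _) ?_
    rw [natDegree_pow]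
    omega
  have hD : (gp (C w) (u, v)).1.natDegree = 2 * u.natDegree := by
    rw [e1, natDegree_sub_eq_left_of_natDegree_lt hdeg2, hdeg1]
  refine ⟨⟨?_, ?_, ?_⟩, hD⟩
  · rw [e1, e2]
    have hCu : IsUnit (C (w - 2) : K[X]) := isUnit_C.2 (isUnit_iff_ne_zero.2 h20)
    refine (isCoprime_mul_unit_left_right hCu _ _).2 ?_
    refine IsCoprime.mul_right ?_ ?_
    · -- coprime to v
      have h1 : IsCoprime (u * (u - C (4 - w) * v)) v := by
        refine IsCoprime.mul_left hc ?_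
        have := hc.add_mul_right_left (-C (4 - w))
        rwa [neg_mul, ← sub_eq_add_neg] at this
      have h3 := h1.add_mul_right_left (-(C (7 * (3 * w - 1)) * v))
      have e3 : u * (u - C (4 - w) * v) - C (7 * (3 * w - 1)) * v ^ 2 =
        u * (u - C (4 - w) * v) + -(C (7 * (3 * w - 1)) * v) * v := by ring
      rw [e3]
      exact h3
    · -- coprime to u - c v
      have h1 : IsCoprime v (u - C (4 - w) * v) := by
        have := hc.add_mul_right_left (-C (4 - w))
        rw [neg_mul, ← sub_eq_add_neg] at this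
        exact this.symm
      have h3 : IsCoprime (C (7 * (3 * w - 1)) * v ^ 2) (u - C (4 - w) * v) := by
        exact (isCoprime_mul_unit_left_left (isUnit_C.2 (isUnit_iff_ne_zero.2 he)) _ _).2
          h1.pow_left
      have e3 : u * (u - C (4 - w) * v) - C (7 * (3 * w - 1)) * v ^ 2 =
        -(C (7 * (3 * w - 1)) * v ^ 2) + u * (u - C (4 - w) * v) := by ring
      rw [e3]
      exact (h3.neg_left).add_mul_right_left u
  · rw [e2]
    exact mul_ne_zero (C_ne_zero.2 h20) (mul_ne_zero hv hl0)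
  · rw [hD, e2]
    refine lt_of_le_of_lt (natDegree_C_mul_le _ _) ?_
    rw [natDegree_mul hv hl0, hlin]
    omega

lemma good_iter {w : K} (hw : w ^ 2 = w - 2) (h2 : (2 : K) ≠ 0) (h7 : (7 : K) ≠ 0)
    {z : K[X] × K[X]} (hz : Good z) (n : ℕ) : Good ((gp (C w))^[n] z) ∧
      ((gp (C w))^[n] z).1.natDegree = 2 ^ n * z.1.natDegree := by
  induction n with
  | zero => simpa using hz
  | succ n ih =>
    rw [Function.iterate_succ_apply']
    have h := good_gp hw h2 h7 ih.1
    refine ⟨h.1, ?_⟩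
    rw [h.2, ih.2, pow_succ]
    ring

lemma conj_map (w : K) : (1 : K[X]) - C w = C (1 - w) := by simp

lemma good_wd {w : K} (hw : w ^ 2 = w - 2) (h2 : (2 : K) ≠ 0) (h7 : (7 : K) ≠ 0)
    {z : K[X] × K[X]} (hz : Good z) (a b : ℕ) : Good (wd (C w) a b z) ∧
      (wd (C w) a b z).1.natDegree = 2 ^ (a + b) * z.1.natDegree := by
  unfold wd
  rw [conj_map]
  have h1 := good_iter (conj_eq hw) h2 h7 hz b
  have h3 := good_iter hw h2 h7 h1.1 a
  refine ⟨h3.1, ?_⟩
  rw [h3.2, h1.2, pow_add]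
  ring

end poly

end Pool.Agent.Y835.ES
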