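import Pool.Agent.Y835.ES.Val

/-!
# No uniform bound in degrees `2 ^ m`, `m ≥ 2`, over number fields containing `√-7`
-/

set_option autoImplicit false

namespace Pool.Agent.Y835.ES

open Polynomial
open Pool.Agent.Results.MP_e85eb4_nt.NoUniformBound (ratDegree toMap iter Wandering Omega
  Admissible Omega_mul one_le_Omega)

/-- The value group of the valuations below. -/
abbrev ZM : Type := WithZero (Multiplicative ℤ)

section abs

variable {K : Type} [Field K]

lemma v_two {v : Valuation K ZM} (h3 : v 3 < 1) : v 2 = 1 := by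
  have e : (2 : K) = 3 + -1 := by norm_num
  have h1 : v (-1 : K) = 1 := by rw [v.map_neg, map_one]
  rw [e, v.map_add_eq_of_lt_right (by rw [h1]; exact h3), h1]

lemma v_seven {v : Valuation K ZM} (h3 : v 3 < 1) : v 7 = 1 := by
  have e : (7 : K) = 2 * 3 + 1 := by norm_num
  have h1 : v (2 * 3 : K) < v 1 := by
    rw [map_mul, v_two h3, one_mul, map_one]; exact h3
  rw [e, v.map_add_eq_of_lt_right h1, map_one]

lemma v_eleven {v : Valuation K ZM} {w : K} (hw : w ^ 2 = w - 2) (h3 : v 3 < 1) :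
    v (11 - w) = 1 := by
  have h11 : (11 : K) ∈ v.integer := by exact_mod_cast natCast_mem v.integer 11
  have h10 : (10 : K) ∈ v.integer := by exact_mod_cast natCast_mem v.integer 10
  have h1 : v (11 - w) ≤ 1 :=
    (Valuation.mem_integer_iff _ _).1 (sub_mem h11 (mem_w v hw))
  have h2 : v (10 + w) ≤ 1 :=
    (Valuation.mem_integer_iff _ _).1 (add_mem h10 (mem_w v hw))
  have e : (11 - w) * (10 + w) = 2 ^ 4 * 7 := by linear_combination (-1 : K) * hw
  have h4 : v (11 - w) * v (10 + w) = 1 := by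
    rw [← map_mul, e, map_mul, map_pow, v_two h3, v_seven h3, one_pow, one_mul]
  refine le_antisymm h1 ?_
  calc (1 : ZM) = v (11 - w) * v (10 + w) := h4.symm
    _ ≤ v (11 - w) * 1 := mul_le_mul_right h2 _
    _ = v (11 - w) := mul_one _

lemma v_DD {v : Valuation K ZM} {w : K} (hw : w ^ 2 = w - 2) (h3 : v 3 < 1) {t : K}
    (ht : v t < 1) : v (DD w (-7 + t)) = v t := by
  have h1 := v_eleven hw h3
  unfold DD
  have e1 : -7 + t + 7 = t := by ring
  have e2 : -7 + t - (4 - w) = t + -(11 - w) := by ring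
  have h2 : v (-(11 - w)) = 1 := by rw [v.map_neg, h1]
  rw [e1, map_mul, e2, v.map_add_eq_of_lt_right (by rw [h2]; exact ht), h2, mul_one]

lemma exists_pow {v : Valuation K ZM} (h2 : v 2 < 1) (h20 : (2 : K) ≠ 0) {b : K} (hb : b ≠ 0) :
    ∃ m : ℕ, 1 < v (b / 2 ^ m) := by
  have hb' : v b ≠ 0 := (Valuation.ne_zero_iff _).2 hb
  have h2' : v 2 ≠ 0 := (Valuation.ne_zero_iff _).2 h20
  obtain ⟨x, hx⟩ := WithZero.ne_zero_iff_exists.1 hb'
  obtain ⟨y, hy⟩ := WithZero.ne_zero_iff_exists.1 h2'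
  have hy1 : Multiplicative.toAdd y < 0 := by
    rw [← hy, ← WithZero.coe_one, WithZero.coe_lt_coe] at h2
    exact h2
  refine ⟨(Multiplicative.toAdd x).natAbs + 1, ?_⟩
  rw [map_div₀, map_pow, ← hx, ← hy, ← WithZero.coe_pow, ← WithZero.coe_div, ← WithZero.coe_one,
    WithZero.coe_lt_coe]
  show (0 : ℤ) < Multiplicative.toAdd (x / y ^ ((Multiplicative.toAdd x).natAbs + 1))
  rw [toAdd_div, toAdd_pow, nsmul_eq_mul]
  push_cast
  have h5 : -|Multiplicative.toAdd x| ≤ Multiplicative.toAdd x := neg_abs_le _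
  nlinarith [abs_nonneg (Multiplicative.toAdd x)]

lemma not_sq {v : Valuation K ZM} {x : K}
    (hx : v x = ((Multiplicative.ofAdd (-1 : ℤ) : Multiplicative ℤ) : ZM)) (y : K) : x ≠ y ^ 2 := by
  rintro rfl
  rw [map_pow] at hx
  have hy : v y ≠ 0 := by
    intro h0
    rw [h0, zero_pow (by norm_num)] at hx
    exact WithZero.coe_ne_zero hx.symm
  obtain ⟨z, hz⟩ := WithZero.ne_zero_iff_exists.1 hy
  rw [← hz, ← WithZero.coe_pow, WithZero.coe_inj] at hx
  have h2 := congrArg Multiplicative.toAdd hx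
  rw [toAdd_pow, toAdd_ofAdd, nsmul_eq_mul] at h2
  push_cast at h2
  omega

/-- The theorem over a field with two suitable valuations. -/
theorem main_abs {w : K} (hw : w ^ 2 = w - 2) (h20 : (2 : K) ≠ 0) (h70 : (7 : K) ≠ 0)
    (v1 v2 : Valuation K ZM) (h1 : v1 2 < 1) (h2 : v2 3 < 1) {b : K}
    (hb : v2 b = ((Multiplicative.ofAdd (-1 : ℤ) : Multiplicative ℤ) : ZM)) {m n : ℕ} (hm : 1 ≤ m)
    (hn : 1 ≤ n) (κ : ℕ) : ¬ Admissible (2 ^ (m + n)) K κ := by
  intro hadm
  have hw' := conj_eq hw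
  obtain ⟨h0, hm20, -⟩ := ne_of_sq hw h20 h70
  obtain ⟨h0', hm20', -⟩ := ne_of_sq hw' h20 h70
  have hb0 : b ≠ 0 := by
    rintro rfl
    rw [map_zero] at hb
    exact WithZero.coe_ne_zero hb.symm
  obtain ⟨e, he⟩ := exists_pow h1 h20 hb0
  set t : K := b / 2 ^ e with ht
  set β : K := -7 + t with hβ
  have hv2t : v2 t = ((Multiplicative.ofAdd (-1 : ℤ) : Multiplicative ℤ) : ZM) := by
    rw [ht, map_div₀, map_pow, v_two h2, one_pow, div_one, hb]
  have hlt : ((Multiplicative.ofAdd (-1 : ℤ) : Multiplicative ℤ) : ZM) < 1 := by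
    rw [← WithZero.coe_one, WithZero.coe_lt_coe]
    show (-1 : ℤ) < 0
    norm_num
  have hDβ : v2 (DD w β) = ((Multiplicative.ofAdd (-1 : ℤ) : Multiplicative ℤ) : ZM) := by
    rw [hβ, v_DD hw h2 (by rw [hv2t]; exact hlt), hv2t]
  have h7 : v1 (-7 : K) ≤ 1 := by
    rw [v1.map_neg]
    exact_mod_cast v_nat v1 7
  have hv1β : 1 < v1 β := by
    rw [hβ, v1.map_add_eq_of_lt_right (lt_of_le_of_lt h7 he)]
    exact he
  -- the point
  set α : K := (hK (1 - w))^[κ + 1] β with hα
  have hv1α : 1 < v1 α := lt_of_lt_of_le hv1β (hK_iter_le v1 hw' h0' hv1β _)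
  have hD : ∀ j : ℕ, ∃ s : K, DD w ((hK (1 - w))^[j] β) = DD w β * s ^ 2 := by
    intro j
    induction j with
    | zero => exact ⟨1, by simp⟩
    | succ j ih =>
      obtain ⟨s, hs⟩ := ih
      rw [Function.iterate_succ_apply', DD_hK hw hm20'
        (v_hK v1 hw' h0' (lt_of_lt_of_le hv1β (hK_iter_le v1 hw' h0' hv1β j))).1, hs]
      exact ⟨_, (by rw [mul_assoc, ← mul_pow])⟩
  have hDα : ¬ ∃ y : K, DD w α = y ^ 2 := by
    rintro ⟨y, hy⟩
    obtain ⟨s, hs⟩ := hD (κ + 1)
    rw [← hα, hy] at hs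
    have hne : DD w α ≠ 0 := by
      unfold DD
      apply mul_ne_zero
      · intro h
        have : α = -7 := by linear_combination h
        rw [this] at hv1α
        exact absurd hv1α (not_lt.2 h7)
      · exact sub_ne_zero.2 (v_hK v1 hw h0 hv1α).1
    have hs0 : s ≠ 0 := by
      rintro rfl
      apply hne
      rw [hy, hs]; ring
    apply not_sq hDβ (y / s)
    rw [div_pow, eq_div_iff (pow_ne_zero 2 hs0)]
    exact hs.symm
  have hdeg : ratDegree (rat (wd (C w) m n (X, 1))) = 2 ^ (m + n) := by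
    have hg := good_wd hw h20 h70 good_X m n
    rw [ratDegree_rat hg.1, hg.2]
    simp
  have hfin := hadm _ hdeg α (wandering v1 hw h20 h70 hm hn hv1α h1)
    (nopre hw h20 h70 hm hDα) (κ + 1) (by omega)
  have hlow := Omega_word hw h20 h70 m n hn (κ + 1) (β := β)
    (fun j _ => (v_hK v1 hw' h0' (lt_of_lt_of_le hv1β (hK_iter_le v1 hw' h0' hv1β j))).1)
  rw [← hα] at hlow
  omega

end abs

section nf

variable (K : Type) [Field K] [NumberField K]

open IsDedekindDomain in
/-- A finite place above a given prime, with a uniformizer. -/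
lemma exists_place (p : ℕ) (hp : p.Prime) :
    ∃ (v : Valuation K ZM) (b : K), v (p : K) < 1 ∧
      v b = ((Multiplicative.ofAdd (-1 : ℤ) : Multiplicative ℤ) : ZM) := by
  have hpm : (Ideal.span {(p : ℤ)}).IsMaximal := by
    have hpp : Prime (p : ℤ) := Nat.prime_iff_prime_int.1 hp
    exact PrincipalIdealRing.isMaximal_of_irreducible hpp.irreducible
  obtain ⟨Q, hQ1, hQ2⟩ := Ideal.exists_ideal_over_maximal_of_isIntegral
    (S := NumberField.RingOfIntegers K) (Ideal.span {(p : ℤ)}) (by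
      rw [(RingHom.injective_iff_ker_eq_bot _).1
        (algebraMap ℤ (NumberField.RingOfIntegers K)).injective_int]
      exact bot_le)
  have hpQ : ((p : ℕ) : NumberField.RingOfIntegers K) ∈ Q := by
    have h1 : (p : ℤ) ∈ Q.comap (algebraMap ℤ (NumberField.RingOfIntegers K)) := by
      rw [hQ2]; exact Ideal.mem_span_singleton_self _
    rw [Ideal.mem_comap] at h1
    simpa using h1
  have hQ0 : Q ≠ ⊥ := by
    rintro rfl
    rw [Ideal.mem_bot] at hpQ
    exact hp.ne_zero (by exact_mod_cast hpQ)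
  let v : HeightOneSpectrum (NumberField.RingOfIntegers K) := ⟨Q, hQ1.isPrime, hQ0⟩
  obtain ⟨b, hb⟩ := v.valuation_exists_uniformizer K
  refine ⟨v.valuation K, b, ?_, hb⟩
  have h1 := (HeightOneSpectrum.valuation_lt_one_iff_mem (K := K) v
    ((p : ℕ) : NumberField.RingOfIntegers K)).2 hpQ
  simpa using h1

/-- **No uniform bound in the degrees `4, 8, 16, …`** over number fields containing `√-7`. -/
theorem main_nf (s : K) (hs : s ^ 2 = -7) {m : ℕ} (hm : 2 ≤ m) (κ : ℕ) :
    ¬ Admissible (2 ^ m) K κ := by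
  have hw : ((1 + s) / 2) ^ 2 = (1 + s) / 2 - 2 := by
    field_simp
    linear_combination hs
  obtain ⟨v1, b1, h1, -⟩ := exists_place K 2 Nat.prime_two
  obtain ⟨v2, b, h2, hb⟩ := exists_place K 3 Nat.prime_three
  have h := main_abs hw two_ne_zero (by norm_num) v1 v2 (by exact_mod_cast h1)
    (by exact_mod_cast h2) hb (m := 1) (n := m - 1) le_rfl (by omega) κ
  have e : 1 + (m - 1) = m := by omega
  rwa [e] at h

end nf

end Pool.Agent.Y835.ES
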