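import Pool.Agent.Y835.ES.Lat
import Pool.Agent.Results.MP_e85eb4_nt.NoUniformBound

/-!
# Iterates of the Lattès maps as rational functions, and the number of factors
-/

set_option autoImplicit false

namespace Pool.Agent.Y835.ES

open Polynomial
open Pool.Agent.Results.MP_e85eb4_nt.NoUniformBound (ratDegree toMap iter Wandering Omega
  Admissible Omega_mul one_le_Omega)

variable {K : Type} [Field K]

/-- The quotient of a pair as a rational function. -/
noncomputable def rat (z : K[X] × K[X]) : RatFunc K :=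
  algebraMap K[X] (RatFunc K) z.1 / algebraMap K[X] (RatFunc K) z.2

lemma num_denom_rat {z : K[X] × K[X]} (hz : Good z) :
    ∃ l : K, l ≠ 0 ∧ (rat z).num = C l * z.1 ∧ (rat z).denom = C l * z.2 := by
  obtain ⟨hc, hv, hd⟩ := hz
  have h1 : (algebraMap K[X] (RatFunc K) (rat z).num) /
      (algebraMap K[X] (RatFunc K) (rat z).denom) = rat z := RatFunc.num_div_denom _
  have hv' : algebraMap K[X] (RatFunc K) z.2 ≠ 0 := by
    rw [Ne, map_eq_zero_iff _ (RatFunc.algebraMap_injective K)]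
    exact hv
  have hd' : algebraMap K[X] (RatFunc K) (rat z).denom ≠ 0 := by
    rw [Ne, map_eq_zero_iff _ (RatFunc.algebraMap_injective K)]
    exact RatFunc.denom_ne_zero _
  have h2 : (rat z).num * z.2 = z.1 * (rat z).denom := by
    apply RatFunc.algebraMap_injective K
    rw [map_mul, map_mul]
    have h3 := h1
    conv_rhs at h3 => rw [rat]
    rw [div_eq_div_iff hd' hv'] at h3
    exact h3
  have hcd : IsCoprime (rat z).num (rat z).denom := RatFunc.isCoprime_num_denom _
  have d1 : z.2 ∣ (rat z).denom := by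
    apply hc.symm.dvd_of_dvd_mul_left
    rw [← h2]
    exact dvd_mul_left _ _
  have d2 : (rat z).denom ∣ z.2 := by
    apply hcd.symm.dvd_of_dvd_mul_left
    rw [h2]
    exact dvd_mul_left _ _
  obtain ⟨t, ht⟩ := associated_of_dvd_dvd d1 d2
  obtain ⟨l, hl, hlt⟩ := isUnit_iff.1 t.isUnit
  refine ⟨l, hl.ne_zero, ?_, ?_⟩
  · have h3 : (rat z).num * z.2 = (C l * z.1) * z.2 := by
      rw [h2, ← ht, ← hlt]; ring
    exact mul_right_cancel₀ hv h3
  · rw [← ht, ← hlt]; ring

lemma eval_rat {z : K[X] × K[X]} (hz : Good z) (r : RatFunc K) :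
    RatFunc.eval RatFunc.C r (rat z) = eval₂ RatFunc.C r z.1 / eval₂ RatFunc.C r z.2 := by
  obtain ⟨l, hl, h1, h2⟩ := num_denom_rat hz
  rw [RatFunc.eval, h1, h2, eval₂_mul, eval₂_mul, eval₂_C]
  have : (RatFunc.C l : RatFunc K) ≠ 0 := by
    rw [Ne, map_eq_zero]; exact hl
  exact mul_div_mul_left _ _ this

/-- Composition of a word in the two maps with a rational function. -/
lemma eval_wd {w : K} (hw : w ^ 2 = w - 2) (h2 : (2 : K) ≠ 0) (h7 : (7 : K) ≠ 0) (a b : ℕ)
    {y : K[X] × K[X]} (hy : Good y) :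
    RatFunc.eval RatFunc.C (rat y) (rat (wd (C w) a b (X, 1))) = rat (wd (C w) a b y) := by
  have hz := (good_wd hw h2 h7 good_X a b).1
  rw [eval_rat hz]
  have e1 := wd_map (eval₂RingHom (RatFunc.C : K →+* RatFunc K) (rat y)) (C w) a b (X, 1)
  simp only [coe_eval₂RingHom, eval₂_C, eval₂_X, eval₂_one] at e1
  have e2 := wd_map (algebraMap K[X] (RatFunc K)) (C w) a b y
  rw [RatFunc.algebraMap_C] at e2
  set t := algebraMap K[X] (RatFunc K) y.2 with ht
  have ht0 : t ≠ 0 := by
    rw [ht, Ne, map_eq_zero_iff _ (RatFunc.algebraMap_injective K)]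
    exact hy.2.1
  have e3 : (algebraMap K[X] (RatFunc K) y.1, t) = (t * rat y, t * 1) := by
    rw [mul_one, rat, ← ht, mul_div_cancel₀ _ ht0]
  rw [e3] at e2
  have e4 := wd_homog (RatFunc.C w) a b t (rat y, 1)
  rw [e4, e1] at e2
  have e5 := (Prod.ext_iff.1 e2).1
  have e6 := (Prod.ext_iff.1 e2).2
  dsimp only at e5 e6
  conv_rhs => rw [rat, ← e5, ← e6]
  exact (mul_div_mul_left _ _ (pow_ne_zero _ ht0)).symm

lemma rat_X : rat ((X, 1) : K[X] × K[X]) = RatFunc.X := by
  simp [rat]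

lemma good_wd_iter {w : K} (hw : w ^ 2 = w - 2) (h2 : (2 : K) ≠ 0) (h7 : (7 : K) ≠ 0) (a b n : ℕ)
    {y : K[X] × K[X]} (hy : Good y) : Good ((wd (C w) a b)^[n] y) := by
  induction n with
  | zero => exact hy
  | succ n ih =>
    rw [Function.iterate_succ_apply']
    exact (good_wd hw h2 h7 ih a b).1

lemma iter_rat {w : K} (hw : w ^ 2 = w - 2) (h2 : (2 : K) ≠ 0) (h7 : (7 : K) ≠ 0) (a b n : ℕ) :
    iter (rat (wd (C w) a b (X, 1))) n = rat ((wd (C w) a b)^[n] (X, 1)) := by
  induction n with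
  | zero => rw [iter, Function.iterate_zero_apply, rat_X]
  | succ n ih =>
    rw [iter, ih, Function.iterate_succ_apply',
      eval_wd hw h2 h7 a b (good_wd_iter hw h2 h7 a b n good_X)]

lemma ratDegree_rat {z : K[X] × K[X]} (hz : Good z) : ratDegree (rat z) = z.1.natDegree := by
  obtain ⟨l, hl, h1, h2⟩ := num_denom_rat hz
  rw [ratDegree, h1, h2, natDegree_C_mul hl, natDegree_C_mul hl]
  exact max_eq_left hz.2.2.le

/-- The point of the projective line with given homogeneous coordinates. -/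
noncomputable def pr (p : K × K) : OnePoint K :=
  open Classical in
  if p.2 = 0 then OnePoint.infty else ((p.1 / p.2 : K) : OnePoint K)

lemma toMap_infty {z : K[X] × K[X]} (hz : Good z) :
    toMap (rat z) (OnePoint.infty : OnePoint K) = OnePoint.infty := by
  obtain ⟨l, hl, h1, h2⟩ := num_denom_rat hz
  show toMap (rat z) none = _
  rw [toMap, h1, h2, natDegree_C_mul hl, natDegree_C_mul hl, if_pos hz.2.2]

lemma toMap_coe {z : K[X] × K[X]} (hz : Good z) (x : K) :
    toMap (rat z) (x : OnePoint K) = pr (z.1.eval x, z.2.eval x) := by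
  obtain ⟨l, hl, h1, h2⟩ := num_denom_rat hz
  show toMap (rat z) (some x) = _
  rw [toMap, h1, h2, pr]
  have e1 : (C l * z.2).eval x = l * z.2.eval x := by simp
  have e2 : (C l * z.1).eval x = l * z.1.eval x := by simp
  by_cases h : z.2.eval x = 0
  · rw [if_pos (by rw [e1, h, mul_zero]), if_pos h]
  · rw [if_neg (by rw [e1]; exact mul_ne_zero hl h), if_neg h, e1, e2, mul_div_mul_left _ _ hl]

lemma toMap_wd {w : K} (hw : w ^ 2 = w - 2) (h2 : (2 : K) ≠ 0) (h7 : (7 : K) ≠ 0) (a b : ℕ)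
    (x : K) : toMap (rat (wd (C w) a b (X, 1))) (x : OnePoint K) = pr (wd w a b (x, 1)) := by
  rw [toMap_coe (good_wd hw h2 h7 good_X a b).1]
  have e1 := wd_map (evalRingHom x) (C w) a b (X, 1)
  simp only [coe_evalRingHom, eval_C, eval_X, eval_one] at e1
  rw [e1]

/-! ### Counting factors -/

/-- The Lattès map on the affine line. -/
def hK (w x : K) : K :=
  (x ^ 2 - (4 - w) * x - 7 * (3 * w - 1)) / ((w - 2) * (x - (4 - w)))

/-- The numerator of `z - β`. -/
noncomputable def num (z : K[X] × K[X]) (β : K) : K[X] := z.1 - C β * z.2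

lemma num_deg {z : K[X] × K[X]} (hz : Good z) (β : K) : (num z β).natDegree = z.1.natDegree := by
  apply natDegree_sub_eq_left_of_natDegree_lt
  exact lt_of_le_of_lt (natDegree_C_mul_le _ _) hz.2.2

lemma num_ne {z : K[X] × K[X]} (hz : Good z) (β : K) : num z β ≠ 0 := by
  intro h
  have h1 := num_deg hz β
  rw [h, natDegree_zero] at h1
  have := hz.2.2
  omega

lemma Omega_step {w : K} (hw : w ^ 2 = w - 2) (h2 : (2 : K) ≠ 0) (h7 : (7 : K) ≠ 0)
    {z : K[X] × K[X]} (hz : Good z) {β : K} (hβ : β ≠ 4 - w) :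
    Omega (num z β) + 1 ≤ Omega (num (gp (C w) z) (hK w β)) := by
  obtain ⟨h0, h20, he⟩ := ne_of_sq hw h2 h7
  have hb : β - (4 - w) ≠ 0 := sub_ne_zero.2 hβ
  set L : K[X] := z.1 - C (4 - w - 7 * (3 * w - 1) / (β - (4 - w))) * z.2 with hL
  have hLd : L.natDegree = z.1.natDegree := num_deg hz _
  have hL0 : L ≠ 0 := num_ne hz _
  have hLpos : 0 < L.natDegree := by
    rw [hLd]; exact lt_of_le_of_lt (Nat.zero_le _) hz.2.2
  have key : num (gp (C w) z) (hK w β) = num z β * L := by
    obtain ⟨u, v⟩ := z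
    have e0 : hK w β * (w - 2) = (β ^ 2 - (4 - w) * β - 7 * (3 * w - 1)) / (β - (4 - w)) := by
      unfold hK
      field_simp
    have e1 : num (gp (C w) (u, v)) (hK w β) = u * (u - C (4 - w) * v) -
        C (7 * (3 * w - 1)) * v ^ 2 - C (hK w β * (w - 2)) * (v * (u - C (4 - w) * v)) := by
      simp only [num, gp, map_sub, map_mul, map_ofNat, map_one]
      ring
    rw [e1, e0, hL]
    set m : K := β - (4 - w) with hm
    set e : K := 7 * (3 * w - 1) with he'
    have hβm : β = m + (4 - w) := by rw [hm]; ring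
    have e2 : (β ^ 2 - (4 - w) * β - e) / m = β - e / m := by
      rw [hβm]; field_simp; ring
    rw [e2]
    have e3 : C e = (C m * C (e / m) : K[X]) := by
      rw [← C_mul, mul_div_cancel₀ _ hb]
    simp only [num, map_sub, map_ofNat] at *
    rw [e3]
    have e4 : (C β : K[X]) = C m + (4 - C w) := by
      rw [hβm]; simp only [map_add, map_sub, map_ofNat]
    rw [e4]
    ring
  rw [key, Omega_mul (num_ne hz _) hL0]
  have := one_le_Omega hLpos
  omega

lemma Omega_chain {w : K} (hw : w ^ 2 = w - 2) (h2 : (2 : K) ≠ 0) (h7 : (7 : K) ≠ 0)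
    {z : K[X] × K[X]} (hz : Good z) {β : K} (k : ℕ) (hβ : ∀ j < k, (hK w)^[j] β ≠ 4 - w) :
    k + 1 ≤ Omega (num ((gp (C w))^[k] z) ((hK w)^[k] β)) := by
  induction k with
  | zero =>
    simp only [Function.iterate_zero, id_eq, zero_add]
    apply one_le_Omega
    rw [num_deg hz]
    exact lt_of_le_of_lt (Nat.zero_le _) hz.2.2
  | succ k ih =>
    have h1 := ih (fun j hj => hβ j (by omega))
    rw [Function.iterate_succ_apply', Function.iterate_succ_apply']
    have h3 := Omega_step hw h2 h7 (good_iter hw h2 h7 hz k).1 (hβ k (by omega))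
    omega

lemma Omega_const {p : K[X]} (hp : p ≠ 0) {l : K} (hl : l ≠ 0) : Omega p ≤ Omega (C l * p) := by
  rw [Omega_mul (C_ne_zero.2 hl) hp]
  omega

/-- Lower bound for the number of factors of `f ^ k - h ^ k (β)` for `f = g ^ a h ^ b`. -/
lemma Omega_word {w : K} (hw : w ^ 2 = w - 2) (h2 : (2 : K) ≠ 0) (h7 : (7 : K) ≠ 0) (a b : ℕ)
    (hb : 1 ≤ b) (k : ℕ) {β : K} (hβ : ∀ j < k, (hK (1 - w))^[j] β ≠ 4 - (1 - w)) :
    k + 1 ≤ Omega ((iter (rat (wd (C w) a b (X, 1))) k).num -
      C ((hK (1 - w))^[k] β) * (iter (rat (wd (C w) a b (X, 1))) k).denom) := by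
  rw [iter_rat hw h2 h7]
  have hg := good_wd_iter hw h2 h7 a b k (good_X (K := K))
  obtain ⟨l, hl, h1, h3⟩ := num_denom_rat hg
  rw [h1, h3]
  have e1 : C l * ((wd (C w) a b)^[k] (X, 1)).1 - C ((hK (1 - w))^[k] β) *
      (C l * ((wd (C w) a b)^[k] (X, 1)).2) =
      C l * num ((wd (C w) a b)^[k] (X, 1)) ((hK (1 - w))^[k] β) := by
    rw [num]; ring
  rw [e1]
  refine le_trans ?_ (Omega_const (num_ne hg _) hl)
  have hwC : (C w : K[X]) ^ 2 = C w - 2 := by
    rw [← C_pow, hw]; simp only [map_sub, map_ofNat]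
  rw [wd_iter (C w) hwC]
  obtain ⟨c, hc⟩ : ∃ c, b * k = k + c := ⟨b * k - k, by
    have : k ≤ b * k := Nat.le_mul_of_pos_left k hb
    omega⟩
  rw [hc, Function.iterate_add_apply, conj_map]
  have hw' := conj_eq hw
  refine Omega_chain hw' h2 h7 ?_ k hβ
  exact (good_iter hw' h2 h7 (good_iter hw h2 h7 good_X _).1 _).1

end Pool.Agent.Y835.ES
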