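import Pool.Agent.Y835.ES.Rat

/-!
# Wandering points of the Lattès maps, and points without preimage
-/

set_option autoImplicit false

namespace Pool.Agent.Y835.ES

open Polynomial
open Pool.Agent.Results.MP_e85eb4_nt.NoUniformBound (ratDegree toMap iter Wandering Omega
  Admissible Omega_mul one_le_Omega)

section val

variable {K : Type} [Field K] {Γ : Type} [LinearOrderedCommGroupWithZero Γ] (v : Valuation K Γ)

lemma v_nat (n : ℕ) : v (n : K) ≤ 1 := by
  have h : ((n : ℕ) : K) ∈ v.integer := natCast_mem _ n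
  exact (Valuation.mem_integer_iff _ _).1 h

lemma v_int {w : K} (hw : w ^ 2 = w - 2) : v w ≤ 1 := by
  by_contra h
  push Not at h
  have h1 : v (w - 2) ≤ v w := by
    refine le_trans (v.map_sub w 2) (max_le le_rfl ?_)
    have := v_nat v 2
    exact (le_trans (by exact_mod_cast this) h.le)
  rw [← hw, map_pow, pow_two] at h1
  have hpos : 0 < v w := lt_trans zero_lt_one h
  have h2 : v w * 1 < v w * v w := mul_lt_mul_of_pos_left h hpos
  rw [mul_one] at h2
  exact absurd h1 (not_le.2 h2)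

lemma mem_w {w : K} (hw : w ^ 2 = w - 2) : w ∈ v.integer :=
  (Valuation.mem_integer_iff _ _).2 (v_int v hw)

lemma v_c {w : K} (hw : w ^ 2 = w - 2) : v (4 - w) ≤ 1 := by
  have h4 : (4 : K) ∈ v.integer := by exact_mod_cast natCast_mem v.integer 4
  exact (Valuation.mem_integer_iff _ _).1 (sub_mem h4 (mem_w v hw))

lemma v_e {w : K} (hw : w ^ 2 = w - 2) : v (7 * (3 * w - 1)) ≤ 1 := by
  have h7 : (7 : K) ∈ v.integer := by exact_mod_cast natCast_mem v.integer 7
  have h3 : (3 : K) ∈ v.integer := by exact_mod_cast natCast_mem v.integer 3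
  exact (Valuation.mem_integer_iff _ _).1
    (mul_mem h7 (sub_mem (mul_mem h3 (mem_w v hw)) (one_mem _)))

lemma v_hK {w x : K} (hw : w ^ 2 = w - 2) (h0 : w ≠ 0) (hx : 1 < v x) :
    x ≠ 4 - w ∧ v (hK w x) * v w ^ 2 = v x := by
  have hc := v_c v hw
  have he := v_e v hw
  have h1 : v (x - (4 - w)) = v x := by
    rw [sub_eq_add_neg]
    apply v.map_add_eq_of_lt_left
    rw [v.map_neg]
    exact lt_of_le_of_lt hc hx
  have hne : x ≠ 4 - w := by
    rintro rfl
    exact absurd hx (not_lt.2 hc)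
  refine ⟨hne, ?_⟩
  have hxpos : 0 < v x := lt_trans zero_lt_one hx
  have h2 : v (x ^ 2 - (4 - w) * x - 7 * (3 * w - 1)) = v x * v x := by
    have e : x ^ 2 - (4 - w) * x - 7 * (3 * w - 1) = x * (x - (4 - w)) + -(7 * (3 * w - 1)) := by
      ring
    have e1 : v (x * (x - (4 - w))) = v x * v x := by rw [map_mul, h1]
    rw [e, v.map_add_eq_of_lt_left, e1]
    rw [v.map_neg, e1]
    have h3 : v x * 1 < v x * v x := mul_lt_mul_of_pos_left hx hxpos
    rw [mul_one] at h3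
    exact lt_of_le_of_lt he (lt_trans hx h3)
  have hw0 : v w ≠ 0 := (Valuation.ne_zero_iff _).2 h0
  unfold hK
  rw [map_div₀, map_mul, h1, h2, ← hw, map_pow]
  field_simp

lemma hK_le {w x : K} (hw : w ^ 2 = w - 2) (h0 : w ≠ 0) (hx : 1 < v x) : v x ≤ v (hK w x) := by
  have h := (v_hK v hw h0 hx).2
  rw [← h]
  have h1 : v w ^ 2 ≤ 1 := pow_le_one' (v_int v hw) 2
  calc v (hK w x) * v w ^ 2 ≤ v (hK w x) * 1 := mul_le_mul_right h1 _
    _ = v (hK w x) := mul_one _

lemma hK_lt {w x : K} (hw : w ^ 2 = w - 2) (h0 : w ≠ 0) (hx : 1 < v x) (hlt : v w < 1) :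
    v x < v (hK w x) := by
  have h := (v_hK v hw h0 hx).2
  have hpos : 0 < v (hK w x) := lt_of_lt_of_le (lt_trans zero_lt_one hx) (hK_le v hw h0 hx)
  have h1 : v w ^ 2 < 1 := by
    rw [pow_two]
    calc v w * v w ≤ v w * 1 := mul_le_mul_right hlt.le _
      _ = v w := mul_one _
      _ < 1 := hlt
  calc v x = v (hK w x) * v w ^ 2 := h.symm
    _ < v (hK w x) * 1 := mul_lt_mul_of_pos_left h1 hpos
    _ = v (hK w x) := mul_one _

lemma hK_iter_le {w x : K} (hw : w ^ 2 = w - 2) (h0 : w ≠ 0) (hx : 1 < v x) (n : ℕ) :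
    v x ≤ v ((hK w)^[n] x) := by
  induction n with
  | zero => exact le_rfl
  | succ n ih =>
    rw [Function.iterate_succ_apply']
    exact ih.trans (hK_le v hw h0 (lt_of_lt_of_le hx ih))

lemma hK_iter_lt {w x : K} (hw : w ^ 2 = w - 2) (h0 : w ≠ 0) (hx : 1 < v x) (hlt : v w < 1) (n : ℕ)
    (hn : 1 ≤ n) : v x < v ((hK w)^[n] x) := by
  obtain ⟨m, rfl⟩ : ∃ m, n = m + 1 := ⟨n - 1, by omega⟩
  rw [Function.iterate_succ_apply']
  have h1 := hK_iter_le v hw h0 hx m
  exact lt_of_le_of_lt h1 (hK_lt v hw h0 (lt_of_lt_of_le hx h1) hlt)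

lemma ratio_gp {w x : K} (h20 : w - 2 ≠ 0) (hx : x ≠ 4 - w) {z : K × K} (hz : z.2 ≠ 0)
    (hzx : z.1 = x * z.2) : (gp w z).2 ≠ 0 ∧ (gp w z).1 = hK w x * (gp w z).2 := by
  obtain ⟨a, b⟩ := z
  dsimp only at hz hzx
  subst hzx
  have hb : x - (4 - w) ≠ 0 := sub_ne_zero.2 hx
  have e : (gp w (x * b, b)).2 = (w - 2) * b * ((x - (4 - w)) * b) := by
    simp only [gp]; ring
  refine ⟨?_, ?_⟩
  · rw [e]
    exact mul_ne_zero (mul_ne_zero h20 hz) (mul_ne_zero hb hz)
  · rw [e]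
    simp only [gp, hK]
    field_simp

lemma ratio_iter {w x : K} (hw : w ^ 2 = w - 2) (h0 : w ≠ 0) (h20 : w - 2 ≠ 0) (hx : 1 < v x)
    {z : K × K} (hz : z.2 ≠ 0) (hzx : z.1 = x * z.2) (n : ℕ) :
    ((gp w)^[n] z).2 ≠ 0 ∧ ((gp w)^[n] z).1 = (hK w)^[n] x * ((gp w)^[n] z).2 := by
  induction n with
  | zero => exact ⟨hz, hzx⟩
  | succ n ih =>
    rw [Function.iterate_succ_apply', Function.iterate_succ_apply']
    have h1 := hK_iter_le v hw h0 hx n
    exact ratio_gp h20 (v_hK v hw h0 (lt_of_lt_of_le hx h1)).1 ih.1 ih.2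

/-- The affine form of the word. -/
def FF (w : K) (a b : ℕ) (x : K) : K := (hK w)^[a] ((hK (1 - w))^[b] x)

lemma toMap_FF {w : K} (hw : w ^ 2 = w - 2) (h2 : (2 : K) ≠ 0) (h7 : (7 : K) ≠ 0) (a b : ℕ)
    {x : K} (hx : 1 < v x) :
    toMap (rat (wd (C w) a b (X, 1))) (x : OnePoint K) = ((FF w a b x : K) : OnePoint K) := by
  have hw' := conj_eq hw
  obtain ⟨h0, h20, -⟩ := ne_of_sq hw h2 h7
  obtain ⟨h0', h20', -⟩ := ne_of_sq hw' h2 h7
  rw [toMap_wd hw h2 h7]
  have h1 := ratio_iter v hw' h0' h20' hx (z := (x, 1)) one_ne_zero (mul_one x).symm b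
  have h3 := ratio_iter v hw h0 h20 (lt_of_lt_of_le hx (hK_iter_le v hw' h0' hx b)) h1.1 h1.2 a
  rw [pr, if_neg (show (wd w a b (x, 1)).2 ≠ 0 from h3.1)]
  congr 1
  have h4 : (wd w a b (x, 1)).1 = FF w a b x * (wd w a b (x, 1)).2 := h3.2
  have h5 : (wd w a b (x, 1)).2 ≠ 0 := h3.1
  rw [h4, mul_div_cancel_right₀ _ h5]

lemma FF_lt {w : K} (hw : w ^ 2 = w - 2) (h2 : (2 : K) ≠ 0) (h7 : (7 : K) ≠ 0) {a b : ℕ}
    (ha : 1 ≤ a) (hb : 1 ≤ b) {x : K} (hx : 1 < v x) (hv : v 2 < 1) : v x < v (FF w a b x) := by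
  have hw' := conj_eq hw
  obtain ⟨h0, h20, -⟩ := ne_of_sq hw h2 h7
  obtain ⟨h0', h20', -⟩ := ne_of_sq hw' h2 h7
  have h1 := hK_iter_le v hw' h0' hx b
  have h3 := hK_iter_le v hw h0 (lt_of_lt_of_le hx h1) a
  by_cases hlt : v w < 1
  · exact lt_of_le_of_lt h1 (hK_iter_lt v hw h0 (lt_of_lt_of_le hx h1) hlt a ha)
  · have h4 : v w = 1 := le_antisymm (v_int v hw) (not_lt.1 hlt)
    have h5 : w * (1 - w) = 2 := by linear_combination (-1 : K) * hw
    have h6 : v (1 - w) < 1 := by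
      have := congrArg v h5
      rw [map_mul, h4, one_mul] at this
      rw [this]; exact hv
    exact lt_of_lt_of_le (hK_iter_lt v hw' h0' hx h6 b hb) h3

lemma wandering {w : K} (hw : w ^ 2 = w - 2) (h2 : (2 : K) ≠ 0) (h7 : (7 : K) ≠ 0) {a b : ℕ}
    (ha : 1 ≤ a) (hb : 1 ≤ b) {x : K} (hx : 1 < v x) (hv : v 2 < 1) :
    Wandering (rat (wd (C w) a b (X, 1))) x := by
  have key : ∀ n : ℕ, (toMap (rat (wd (C w) a b (X, 1))))^[n] (x : OnePoint K) =
      ((FF w a b)^[n] x : K) ∧ v x ≤ v ((FF w a b)^[n] x) := by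
    intro n
    induction n with
    | zero => exact ⟨rfl, le_rfl⟩
    | succ n ih =>
      rw [Function.iterate_succ_apply', Function.iterate_succ_apply', ih.1]
      have h1 := lt_of_lt_of_le hx ih.2
      exact ⟨toMap_FF v hw h2 h7 a b h1, ih.2.trans (FF_lt v hw h2 h7 ha hb h1 hv).le⟩
  apply Set.infinite_range_of_injective
  have hmono : StrictMono (fun n : ℕ => v ((FF w a b)^[n] x)) := by
    apply strictMono_nat_of_lt_succ
    intro n
    rw [Function.iterate_succ_apply']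
    exact FF_lt v hw h2 h7 ha hb (lt_of_lt_of_le hx (key n).2) hv
  intro n m h
  dsimp only at h
  rw [(key n).1, (key m).1, OnePoint.coe_eq_coe] at h
  exact hmono.injective (congrArg v h)

end val

section nopre

variable {K : Type} [Field K]

/-- The product whose class modulo squares decides whether a point has a preimage under `gp w`. -/
def DD (w x : K) : K := (x + 7) * (x - (4 - w))

lemma nopre {w : K} (hw : w ^ 2 = w - 2) (h2 : (2 : K) ≠ 0) (h7 : (7 : K) ≠ 0) {a b : ℕ}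
    (ha : 1 ≤ a) {α : K} (hα : ¬ ∃ y : K, DD w α = y ^ 2) (x : OnePoint K) :
    toMap (rat (wd (C w) a b (X, 1))) x ≠ (α : OnePoint K) := by
  obtain ⟨h0, h20, -⟩ := ne_of_sq hw h2 h7
  induction x using OnePoint.rec with
  | infty =>
    rw [toMap_infty (good_wd hw h2 h7 good_X a b).1]
    exact OnePoint.infty_ne_coe α
  | coe x =>
    rw [toMap_wd hw h2 h7, pr]
    split_ifs with hq
    · exact OnePoint.infty_ne_coe α
    · rw [Ne, OnePoint.coe_eq_coe]
      intro h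
      obtain ⟨m, rfl⟩ : ∃ m, a = m + 1 := ⟨a - 1, by omega⟩
      apply hα
      rw [div_eq_iff hq] at h
      unfold wd at h hq
      rw [Function.iterate_succ_apply'] at h hq
      set z := (gp w)^[m] ((gp (1 - w))^[b] (x, 1)) with hz
      obtain ⟨s, t⟩ := z
      simp only [gp] at h hq
      have ht : t ≠ 0 := by
        intro h0
        apply hq
        rw [h0]; ring
      refine ⟨(2 * (s / t) - ((4 - w) + α * (w - 2))) / (w - 2), ?_⟩
      have hE : (s / t) ^ 2 - (4 - w) * (s / t) - 7 * (3 * w - 1) -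
          α * (w - 2) * (s / t - (4 - w)) = 0 := by
        have : (s / t) ^ 2 - (4 - w) * (s / t) - 7 * (3 * w - 1) -
          α * (w - 2) * (s / t - (4 - w)) = (s ^ 2 - (4 - w) * s * t - 7 * (3 * w - 1) * t ^ 2 -
            α * ((w - 2) * t * (s - (4 - w) * t))) / t ^ 2 := by
          field_simp
        rw [this, h, sub_self, zero_div]
      rw [div_pow, eq_div_iff (pow_ne_zero 2 h20)]
      unfold DD
      linear_combination (-4 : K) * hE - ((50) + (2)*α + (-7)*w + (-1)*w*α) * hw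

lemma DD_hK {w x : K} (hw : w ^ 2 = w - 2) (h20 : (1 - w) - 2 ≠ 0) (hx : x ≠ 4 - (1 - w)) :
    DD w (hK (1 - w) x) = DD w x * ((x - (5 + 4 * w)) / (((1 - w) - 2) * (x - (4 - (1 - w))))) ^ 2 := by
  have hb : x - (4 - (1 - w)) ≠ 0 := sub_ne_zero.2 hx
  have hden : ((1 - w) - 2) * (x - (4 - (1 - w))) ≠ 0 := mul_ne_zero h20 hb
  have e1 : hK (1 - w) x + 7 = (x - (5 + 4 * w)) ^ 2 / (((1 - w) - 2) * (x - (4 - (1 - w)))) := by
    unfold hK
    rw [eq_div_iff hden, add_mul, div_mul_cancel₀ _ hden]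
    linear_combination (-9 : K) * hw
  have e2 : hK (1 - w) x - (4 - w) = (x - (4 - w)) * (x + 7) /
      (((1 - w) - 2) * (x - (4 - (1 - w)))) := by
    unfold hK
    rw [eq_div_iff hden, sub_mul, div_mul_cancel₀ _ hden]
    linear_combination (1 + (-1) * x + w) * hw
  unfold DD
  rw [e1, e2, div_pow]
  field_simp

end nopre

end Pool.Agent.Y835.ES
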